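import Pool.Agent.CCG.EXP
import Pool.Agent.CCG.ORD
import Pool.Agent.CCG.NB2b
import Pool.Agent.CCG.CEN
import Pool.Agent.CCG.SEL2
import Pool.Agent.CCG.LABC
import Pool.Agent.CCG.LABB
import Pool.Agent.CCG.GRE
import Pool.Agent.CCG.GAM4
import Pool.Agent.CCG.DEG6
import Pool.Agent.CCG.CLZ
import Pool.Agent.CCG.DAT2
import Pool.Agent.CCG.LEVb
import Pool.Agent.CCG.CNT
import Pool.Agent.CCG.RNK
import Pool.Agent.CCG.CMP
import Pool.Agent.CCG.EXS
import Pool.Agent.CCG.ARI

/-!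
# MP_a65679_lc: an exponential bound for computable colourings of co-comparability graphs
-/

namespace Pool.Agent.Results.MP_a65679_lc.ExponentialBound

open Pool.Agent.CCG

/-- The graph `G` on the set `V ⊆ ℕ` is a computable graph: `V` is a computable set and adjacency
is a computable relation on `V`. -/
def IsComputableGraph (V : Set ℕ) (G : SimpleGraph V) : Prop :=
  ComputablePred (fun n : ℕ => n ∈ V) ∧
    ComputablePred fun p : ℕ × ℕ =>
      ∃ (hx : p.1 ∈ V) (hy : p.2 ∈ V), G.Adj ⟨p.1, hx⟩ ⟨p.2, hy⟩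

/-- `G` is the co-comparability (incomparability) graph of some partial order on its vertex set;
the order need not be computable. -/
def IsCoComparabilityGraph (V : Set ℕ) (G : SimpleGraph V) : Prop :=
  ∃ P : PartialOrder V, ∀ x y : V, G.Adj x y ↔ ¬ P.le x y ∧ ¬ P.le y x

/-- `G` has a computable colouring with `k` colours. -/
def ComputablyColourable (V : Set ℕ) (G : SimpleGraph V) (k : ℕ) : Prop :=
  ∃ c : ℕ → ℕ, Computable c ∧ (∀ x : V, c x < k) ∧ ∀ x y : V, G.Adj x y → c x ≠ c y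

theorem main (hI : Stmt_EXP) (w : ℕ) (V : Set ℕ) (G : SimpleGraph V)
    (hG : IsComputableGraph V G) (hP : IsCoComparabilityGraph V G) (hw : G.CliqueFree (w + 1)) :
    ComputablyColourable V G (100 ^ (w - 1)) := by
  classical
  obtain ⟨-, hE⟩ := hG
  obtain ⟨P, hP⟩ := hP
  rcases Nat.eq_zero_or_pos w with rfl | hw1
  · have hV : ∀ x : V, False := fun x => hw {x} ⟨by simp, by simp⟩
    exact ⟨fun _ => 0, Computable.const 0, fun x => (hV x).elim, fun x => (hV x).elim⟩
  let E : ℕ → ℕ → Prop := fun x y => ∃ (hx : x ∈ V) (hy : y ∈ V), G.Adj ⟨x, hx⟩ ⟨y, hy⟩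
  let lt : ℕ → ℕ → Prop := fun x y => ∃ (hx : x ∈ V) (hy : y ∈ V), P.lt ⟨x, hx⟩ ⟨y, hy⟩
  obtain ⟨c, hc, hb, hp⟩ := fin_col hw1 (hI w hw1) (fun x => x ∈ V) E lt
    (hE.of_eq fun p => ⟨fun ⟨hx, hy, h⟩ => ⟨hx, hy, hx, hy, h⟩, fun ⟨_, _, h⟩ => h⟩)
    (fun x hx ⟨_, _, h⟩ => (P.lt_iff_le_not_ge _ _).1 h |>.2 ((P.lt_iff_le_not_ge _ _).1 h).1)
    (fun x y z _ _ _ ⟨hx, hy, h⟩ ⟨_, hz, h'⟩ => ⟨hx, hz, @lt_trans _ P.toPreorder _ _ _ h h'⟩)
    (fun x y hx hy => by
      constructor
      · rintro ⟨_, _, h⟩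
        have h2 := (hP _ _).1 h
        refine ⟨?_, ?_, ?_⟩
        · rintro rfl
          exact h2.1 (P.le_refl _)
        · rintro ⟨_, _, h3⟩
          exact h2.1 ((P.lt_iff_le_not_ge _ _).1 h3).1
        · rintro ⟨_, _, h3⟩
          exact h2.2 ((P.lt_iff_le_not_ge _ _).1 h3).1
      · rintro ⟨hne, h1, h2⟩
        refine ⟨hx, hy, (hP _ _).2 ⟨fun h => ?_, fun h => ?_⟩⟩
        · refine h1 ⟨hx, hy, (P.lt_iff_le_not_ge _ _).2 ⟨h, fun h' => hne ?_⟩⟩
          have := P.le_antisymm _ _ h h'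
          simpa using this
        · refine h2 ⟨hy, hx, (P.lt_iff_le_not_ge _ _).2 ⟨h, fun h' => hne ?_⟩⟩
          have := P.le_antisymm _ _ h' h
          simpa using this)
    (fun t ht hV hpw => by
      have hsym : ∀ x y, E x y → E y x := fun x y ⟨hx, hy, h⟩ => ⟨hy, hx, h.symm⟩
      have hnd : t.Nodup := hpw.imp fun {a b} ⟨hx, hy, h⟩ => by
        rintro rfl
        exact G.loopless.irrefl _ h
      have key : ∀ x ∈ t, ∀ y ∈ t, x ≠ y → E x y := by
        intro x hx y hy hxy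
        obtain ⟨i, hi, rfl⟩ := List.mem_iff_getElem.1 hx
        obtain ⟨j, hj, rfl⟩ := List.mem_iff_getElem.1 hy
        rw [List.pairwise_iff_getElem] at hpw
        rcases Nat.lt_trichotomy i j with h | h | h
        · exact hpw i j hi hj h
        · subst h
          exact absurd rfl hxy
        · exact hsym _ _ (hpw j i hj hi h)
      refine hw (t.pmap (fun x h => (⟨x, h⟩ : V)) hV).toFinset ⟨?_, ?_⟩
      · intro a ha b hb hab
        simp only [List.coe_toFinset, List.mem_pmap, Set.mem_ofPred_eq] at ha hb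
        obtain ⟨x, hx, rfl⟩ := ha
        obtain ⟨y, hy, rfl⟩ := hb
        obtain ⟨_, _, h⟩ := key x hx y hy fun h => hab (by simp [h])
        exact h
      · rw [List.toFinset_card_of_nodup, List.length_pmap, ht]
        exact hnd.pmap fun a _ b _ h => by simpa using h)
  exact ⟨c, hc, fun x => hb x x.2, fun x y h => hp x y x.2 y.2 ⟨x.2, y.2, h⟩⟩

theorem exp_bound : Stmt_EXP :=
  EXP_thm (EXS_thm
    (DAT2_thm CEN_thm SEL2_thm LABC_thm LABB_thm GRE_thm (GAM4_thm ORD_thm) (DEG6_thm ORD_thm)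
      (CLZ_thm ORD_thm (NB2b_thm ORD_thm)))
    LEVb_thm (RNK_thm CNT_thm) CMP_thm) ARI_thm

/-- Every computable co-comparability graph (only the graph is given) without cliques of size
`w + 1` has a computable colouring with `100 ^ (w - 1)` colours. -/
theorem result (w : ℕ) (V : Set ℕ) (G : SimpleGraph V) (hG : IsComputableGraph V G)
    (hP : IsCoComparabilityGraph V G) (hw : G.CliqueFree (w + 1)) :
    ComputablyColourable V G (100 ^ (w - 1)) :=
  main exp_bound w V G hG hP hw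

end Pool.Agent.Results.MP_a65679_lc.ExponentialBound
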